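import Mathlib

/-!
# Project TT (MP_6090f9_nt): the residue formula for quadratic twists of products of two curves

THEOREM.  `k` a number field, `f, g ∈ 𝓞 k[x]` separable of degree `≥ 1`, `C_D : y² = D f(x)`, `C' : y² = g(x)`,
`X_D = C_D × C'`, `b_v(X_D) = 2 q_v + a_v(C_D) a_v(C')` (trace on `H²`), `B = (8 deg f + 12)(8 deg g + 12)`.  For every finite
set `S` of `D`'s, pairwise different modulo squares, and every `ε > 0`: `∑_(D ∈ S) ((s-2) F_D(s) - 2)² ≤ B² + ε` for all `s > 2`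
close to `2`.  So the residue of `F_D` at `2`, when it exists, is within `ε` of `2` for all but `B²/ε²` twists, and if
`exp(∑ b_v q_v^(-s))` is meromorphic at `2` it is exactly `2` for all but `B²` twists.

METHOD.  Bessel's inequality: the quadratic characters of `k` are orthonormal for the means
`(s-1) ∑_v (..) log q_v q_v^(-s)`, `s → 1⁺`, and `a_v(C) a_v(C')/q_v` is bounded (Stepanov).

Every docstring is a complete proof; `StX` is proved as `theorem hX : StX` (hypotheses = earlier statements, as listed).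
-/

set_option autoImplicit false

namespace Pool.Agent.Helper95.TT

open NumberField IsDedekindDomain Polynomial Filter Topology
open scoped Classical

noncomputable section

/-- the primes of a number field -/
abbrev Pr (k : Type) [Field k] [NumberField k] : Type := HeightOneSpectrum (𝓞 k)

variable {k : Type} [Field k] [NumberField k]

/-- the size of the residue field -/
def q (v : Pr k) : ℕ := Ideal.absNorm v.asIdeal

/-- number of points over the residue field at `v` of the smooth projective curve `y² = D f(x)`: the affine points, and at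
infinity one point if the degree is odd, and the points `z` with `z² = D · lc(f)` if the degree is even -/
def pts (D : 𝓞 k) (f : (𝓞 k)[X]) (v : Pr k) : ℕ :=
  Nat.card {z : (𝓞 k ⧸ v.asIdeal) × (𝓞 k ⧸ v.asIdeal) //
    z.2 ^ 2 = Ideal.Quotient.mk v.asIdeal D * (f.map (Ideal.Quotient.mk v.asIdeal)).eval z.1} +
  if Even f.natDegree then
    Nat.card {z : 𝓞 k ⧸ v.asIdeal // z ^ 2 = Ideal.Quotient.mk v.asIdeal (D * f.leadingCoeff)}
  else 1

/-- trace of Frobenius on `H¹` of the curve `y² = D f(x)` at `v` -/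
def tr (D : 𝓞 k) (f : (𝓞 k)[X]) (v : Pr k) : ℤ := q v + 1 - pts D f v

/-- trace of Frobenius on `H²` of the surface `X_D` at `v` -/
def bb (D : 𝓞 k) (f g : (𝓞 k)[X]) (v : Pr k) : ℤ := 2 * q v + tr D f v * tr 1 g v

/-- a bad prime for `f` -/
def Bad (f : (𝓞 k)[X]) (v : Pr k) : Prop :=
  (2 : 𝓞 k) ∈ v.asIdeal ∨ f.leadingCoeff ∈ v.asIdeal ∨
    ¬ Squarefree (f.map (Ideal.Quotient.mk v.asIdeal))

/-- the function `F` of the problem for the surface `X_D`, without the primes in `R` -/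
def FF (R : Set (Pr k)) (D : 𝓞 k) (f g : (𝓞 k)[X]) (s : ℝ) : ℝ :=
  ∑' v : Pr k, if v ∈ R then 0 else (bb D f g v : ℝ) * Real.log (q v) * (q v : ℝ) ^ (-s)

/-- quadratic residue symbol -/
def chi (D : 𝓞 k) (v : Pr k) : ℝ :=
  if 2 * D ∈ v.asIdeal then 0 else if ∃ a : 𝓞 k, a ^ 2 - D ∈ v.asIdeal then 1 else -1

/-- weight of a prime -/
def wt (s : ℝ) (v : Pr k) : ℝ := Real.log (q v) * (q v : ℝ) ^ (-s)

/-! ## Statements -/

/-- **A1** (Euler product; copy of `Pool/Agent/Helper34/TW/M_D1.lean`, whose private lemmas give it).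
PROOF.  For real `s > 1`: `ζ_K(s) = ∑_(I ≠ 0) N(I)^(-s)` (lemmas `zeta_D1`, `sum_ideals_D1`).  For a finite set `T` of primes,
`∏_(v ∈ T) (1 - q_v^(-s))⁻¹ ≤ ζ_K(s)` (the partial products of geometric series are sums over different ideals,
`prod_eq_D1`, let the number of terms go to infinity), and every finite partial sum of `ζ_K(s)` is `≤` such a product for `T`
large (`cover_D1`, and `∑_(j<M) x^j ≤ (1-x)⁻¹`).  Take logarithms: the partial sums of `∑_v -log(1 - q_v^(-s))` are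
`≤ log ζ_K(s)`, so it converges, and its sum is `≥ log` of every partial sum of `ζ_K(s)`, so it is `log ζ_K(s)`. -/
def StA1 : Prop := ∀ (K : Type) [Field K] [NumberField K] (s : ℝ), 1 < s →
  Summable (fun v : Pr K => -Real.log (1 - (q v : ℝ) ^ (-s))) ∧
  ∑' v : Pr K, -Real.log (1 - (q v : ℝ) ^ (-s)) = Real.log (dedekindZeta K s).re

/-- **A2** (prime ideal sum with logarithmic weights).  Hypotheses: StA1.
PROOF.  `h_v(s) = -log(1 - q^(-s))` (`q = q_v ≥ 2`), `d_v(s) = -h_v'(s) = log q/(q^s - 1)`, positive and decreasing.  Mean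
value theorem: for `1 ≤ s < t`: `(t-s) d_v(t) ≤ h_v(s) - h_v(t) ≤ (t-s) d_v(s)`.  So `∑ d_v(t)` converges for `t > 1` (take
`s = (1+t)/2`, A1), `Δ(s) = ∑_v d_v(s)`, `ψ(s) = ∑_v h_v(s) = log ζ_K(s)`:
`(t-s) Δ(t) ≤ ψ(s) - ψ(t) ≤ (t-s) Δ(s)` for `1 < s < t`.  `(s-1) ζ_K(s) → ρ > 0` (`tendsto_sub_one_mul_dedekindZeta_nhdsGT`, as
in `Helper34/TW/M_D2.lean`), so `ψ(1+u) + log u → log ρ` for `u → 0⁺`, and for fixed `λ > 1`
`ψ(1+u) - ψ(1+λu) → log λ`.  So `limsup λu Δ(1+λu) ≤ λ log λ/(λ-1)` and `liminf u Δ(1+u) ≥ log λ/(λ-1)`; both bounds tend to `1` for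
`λ → 1⁺`, so `u Δ(1+u) → 1`.  Finally `0 ≤ d_v(s) - log q q^(-s) = log q/(q^s(q^s-1)) ≤ 2 d_v(2)` for `s ≥ 1`, so the difference of
`Δ(s)` and the sum in question is bounded. -/
def StA2 : Prop := ∀ (K : Type) [Field K] [NumberField K],
  (∀ s : ℝ, 1 < s → Summable (fun v : Pr K => wt s v)) ∧
  Tendsto (fun s : ℝ => (s - 1) * ∑' v : Pr K, wt s v) (𝓝[>] 1) (𝓝 1)

/-- **A3** (primes in a quadratic extension).
PROOF.  `L = k(θ)`, `θ² = E` (`AdjoinRoot (X^2 - C E)`, irreducible), `θ ∈ 𝓞 L`, `σ` the conjugation `θ ↦ -θ`,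
`π w = w ∩ 𝓞 k`.  For the primes `w` above `v`: `∑ e_w f_w = 2` (`Ideal.sum_ramification_inertia`) and `q w = (q v)^(f_w)`, so
there are one or two of them and `q (π w) ≤ q w`.  Let `2E ∉ v`.  (i) `a² - E ∈ v`: let `w` be above `v`.
`(θ - a)(θ + a) = E - a² ∈ w`, so `θ - a ∈ w` or `θ + a ∈ w`; replace `a` by `-a` to have `θ - a ∈ w`.  Then
`θ + a = -σ(θ - a) ∈ σ(w)`.  `w ≠ σ(w)`: otherwise `2a ∈ w ∩ 𝓞 k = v` and `4E = 4a² - 4(a² - E) ∈ v`, so `2E ∈ v` (prime).  So `w`,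
`σ(w)` are two primes above `v`, by `∑ e f = 2` they are all and `f = 1`.  (ii) `E` not a square modulo `v`: if `f_w = 1` for some
`w` above `v`, then `𝓞 k/v → 𝓞 L/w` is bijective, `θ - a ∈ w` for some `a ∈ 𝓞 k`, `a² - E = -(θ-a)(θ+a) ∈ w ∩ 𝓞 k = v`:
contradiction.  So `f_w ≥ 2`, there is one prime, `q w = (q v)²`. -/
def StA3 : Prop := ∀ (k : Type) [Field k] [NumberField k] (E : 𝓞 k),
  ¬ IsSquare (algebraMap (𝓞 k) k E) →
  ∃ (L : Type) (_ : Field L) (_ : NumberField L) (π : Pr L → Pr k),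
    (∀ w, q (π w) ≤ q w) ∧
    (∀ v, {w | π w = v}.Finite ∧ {w | π w = v}.ncard ≤ 2) ∧
    (∀ v : Pr k, 2 * E ∉ v.asIdeal → (∃ a : 𝓞 k, a ^ 2 - E ∈ v.asIdeal) →
      ∃ w₁ w₂, w₁ ≠ w₂ ∧ {w | π w = v} = {w₁, w₂} ∧ q w₁ = q v ∧ q w₂ = q v) ∧
    (∀ v : Pr k, 2 * E ∉ v.asIdeal → (¬ ∃ a : 𝓞 k, a ^ 2 - E ∈ v.asIdeal) →
      ∃ w, {w | π w = v} = {w} ∧ q w = q v ^ 2)

/-- **A4** (a quadratic character has mean zero).  Hypotheses: StA2 StA3.
PROOF.  Let `L, π` be from A3, `T_K(s) = ∑_v wt s v` over the primes of `K`.  Group the primes of `L` by `v = π w` (all terms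
are `≥ 0`).  `2E ∉ v`, `chi E v = 1`: the fibre contributes `2 wt s v = (1 + chi E v) wt s v`.  `2E ∉ v`, `chi E v = -1`: it
contributes `2 log q_v q_v^(-2s) ≤ 2 wt 2 v` (`s ≥ 1`), and `1 + chi E v = 0`.  `2E ∈ v` (finitely many `v`, as `E ≠ 0`): it
contributes at most `2 log q_w q_w^(-s) ≤ 2`-ish bounded terms (`log x ≤ x`, `s ≥ 1`), and `(1 + chi E v) wt s v ≤ 1`.  So
`|T_L(s) - ∑_v (1 + chi E v) wt s v| ≤ C` for `1 < s`, and `(s-1) ∑ chi E v wt s v = (s-1)T_L - (s-1)T_k + O(s-1) → 1 - 1 = 0`. -/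
def StA4 : Prop := ∀ (k : Type) [Field k] [NumberField k] (E : 𝓞 k),
  ¬ IsSquare (algebraMap (𝓞 k) k E) →
  Tendsto (fun s : ℝ => (s - 1) * ∑' v : Pr k, chi E v * wt s v) (𝓝[>] 1) (𝓝 0)

/-- **A5** (finite fields).
PROOF.  `κ = 𝓞 k / v` is a finite field with `q v` elements (`Ideal.absNorm`, `Submodule.cardQuot`) of odd characteristic, `chi D v`
is the quadratic character of the class of `D` (`2D ∈ v` iff `D ∈ v`; `quadraticChar κ`), so it is multiplicative.  For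
`c ∈ κ` there are `1 + χ(c)` solutions of `y² = c` (`quadraticChar_card_sqrts`).  So
`pts D f v = ∑_x (1 + χ(D)χ(f x)) + (1 or 1 + χ(D)χ(lc f)) = q + 1 + χ(D) (∑_x χ(f x) + (0 or χ(lc f)))`, and
`tr D f v = -χ(D) (..)`; for `D = 1` the same without `χ(D)`. -/
def StA5 : Prop := ∀ (k : Type) [Field k] [NumberField k] (v : Pr k), (2 : 𝓞 k) ∉ v.asIdeal →
  (∀ D E : 𝓞 k, chi (D * E) v = chi D v * chi E v) ∧
  ∀ (D : 𝓞 k) (f : (𝓞 k)[X]), D ∉ v.asIdeal → (tr D f v : ℝ) = chi D v * tr 1 f v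

/-- **A6** (Weil bound from Stepanov's method, `Pool.Agent.Helper54.PT.card_Sa_le` in `Pool/Agent/Helper37/TW/S5.lean`).
PROOF.  `κ = 𝓞 k / v`, `q = q v = 2c + 1`, `f̄ = f mod v` squarefree of degree `d = deg f` (as `lc f ∉ v`).  `S_b = {x : f̄(x)^c = b}`.
If `q ≥ 4(d+3)²`: `|S_1|, |S_(-1)| ≤ q/2 + (4d+5)√q`, `|S_0| ≤ d`, the sum of the three is `q`
(`FiniteField.pow_dichotomy`), so `| |S_1| - |S_(-1)| | ≤ (8d+10)√q + d`.  The number of affine points is `|S_0| + 2|S_1|`, so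
`tr 1 f v = |S_(-1)| - |S_1| + 1 - i` with `0 ≤ i ≤ 2` points at infinity, and `d + 1 ≤ √q`.  If `q < 4(d+3)²`: the number of
affine points is between `0` and `2q`, so `|tr| ≤ q + 1 ≤ 2q = 2 √q √q ≤ 4(d+3)√q ≤ (8d+12)√q`. -/
def StA6 : Prop := ∀ (k : Type) [Field k] [NumberField k] (v : Pr k) (f : (𝓞 k)[X]),
  1 ≤ f.natDegree → ¬ Bad f v → |(tr 1 f v : ℝ)| ≤ (8 * f.natDegree + 12) * √(q v)

/-- **A7** (finitely many bad primes).
PROOF.  A nonzero `c ∈ 𝓞 k` is contained in finitely many primes (`Ideal.finite_factors` for `span {c}`).  `f` is separable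
over `k`: `a f + b f' = 1` in `k[X]`; clearing denominators, `A f + B f' = C c` in `(𝓞 k)[X]`, `c ≠ 0`.  If `2, lc f, c ∉ v` then
`f mod v` is coprime to its derivative (`c` is a unit of the field `𝓞 k / v`), hence squarefree
(`Polynomial.Separable.squarefree`).  `lc f ≠ 0` as `f ≠ 0`. -/
def StA7 : Prop := ∀ (k : Type) [Field k] [NumberField k],
  (∀ c : 𝓞 k, c ≠ 0 → {v : Pr k | c ∈ v.asIdeal}.Finite) ∧
  ∀ f : (𝓞 k)[X], (f.map (algebraMap (𝓞 k) k)).Separable → {v : Pr k | Bad f v}.Finite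

/-- **A8** (Bessel's inequality).
PROOF.  `y_i(s) = ∑' w c χ_i`, `W(s) = ∑' w → 1`, `G_ij(s) = ∑' w χ_i χ_j → δ_ij`.  All series converge absolutely
(bounded times `w`).  `0 ≤ ∑' w (c - ∑_i y_i χ_i)² = ∑' w c² - 2 ∑ y_i² + ∑_ij y_i y_j G_ij
≤ B² W - ∑ y_i² + ∑_ij y_i y_j (G_ij - δ_ij)`, and `|y_i| ≤ B W`.  So `∑ y_i² ≤ B² W + (B W)² ∑_ij |G_ij - δ_ij| → B²`. -/
def StA8 : Prop := ∀ (V ι : Type) [Fintype ι] [DecidableEq ι] (w : ℝ → V → ℝ) (c : V → ℝ)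
  (χ : ι → V → ℝ) (B : ℝ), (∀ᶠ s : ℝ in 𝓝[>] 1, (∀ v, 0 ≤ w s v) ∧ Summable (w s)) →
  Tendsto (fun s => ∑' v, w s v) (𝓝[>] 1) (𝓝 1) → (∀ v, |c v| ≤ B) → (∀ i v, |χ i v| ≤ 1) →
  (∀ i j, Tendsto (fun s => ∑' v, w s v * (χ i v * χ j v)) (𝓝[>] 1) (𝓝 (if i = j then 1 else 0))) →
  ∀ ε > 0, ∀ᶠ s : ℝ in 𝓝[>] 1, ∑ i, (∑' v, w s v * (c v * χ i v)) ^ 2 ≤ B ^ 2 + ε

/-- **A9** (main theorem).  Hypotheses: StA2 StA4 StA5 StA6 StA7 StA8.
PROOF.  Put `s' = s - 1`.  For `v ∉ R i`: `v` is good for `f` and `g`, `D i ∉ v`, and by A5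
`bb = 2q + chi (D i) v · tr 1 f v · tr 1 g v`.  Let `c v = tr 1 f v · tr 1 g v / q v` if `v` is good for `f` and `g`, and `0`
otherwise: `|c v| ≤ B` (A6).  So `(s-2) FF(R i)(D i)(s) = (s'-1) ∑_(v ∉ R i) (2 + c v · chi (D i) v) wt s' v`
(`q · log q · q^(-s) = wt s' v`; this also gives the convergence for `s > 2`, A2).  Let `R` be the union of all `R i` (finite),
`w_(s') v = (s'-1) wt s' v` for `v ∉ R`, `0` for `v ∈ R`.  A finite set of primes contributes `O(s'-1)`.  So `∑ w → 1` (A2),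
`∑ w χ_i χ_i → 1` (`χ_i v = chi (D i) v = ±1` for `v ∉ R`), `∑ w χ_i χ_j → 0` for `i ≠ j`
(`chi (D i) v chi (D j) v = chi (D i * D j) v` by A5, A4).  A8: `∑ y_i² ≤ B² + ε/2` eventually, `y_i = ∑ w c χ_i`.  Finally
`(s-2) FF_i(s) - 2 = y_i + e_i`, `e_i = 2(∑w - 1) + O(s'-1) → 0`, and `|y_i| ≤ 2B`. -/
def StA9 : Prop := ∀ (k : Type) [Field k] [NumberField k] (f g : (𝓞 k)[X]), 1 ≤ f.natDegree →
  1 ≤ g.natDegree → (f.map (algebraMap (𝓞 k) k)).Separable → (g.map (algebraMap (𝓞 k) k)).Separable →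
  (∀ (D : 𝓞 k) (R : Set (Pr k)), (∀ v, Bad f v ∨ Bad g v ∨ D ∈ v.asIdeal → v ∈ R) → ∀ s : ℝ, 2 < s →
    Summable (fun v : Pr k => if v ∈ R then 0 else (bb D f g v : ℝ) * Real.log (q v) * (q v : ℝ) ^ (-s))) ∧
  ∀ (ι : Type) [Fintype ι] (D : ι → 𝓞 k) (R : ι → Set (Pr k)), (∀ i, D i ≠ 0) →
    (∀ i j, i ≠ j → ¬ IsSquare (algebraMap (𝓞 k) k (D i * D j))) → (∀ i, (R i).Finite) →
    (∀ i v, Bad f v ∨ Bad g v ∨ D i ∈ v.asIdeal → v ∈ R i) → ∀ ε > 0, ∀ᶠ s : ℝ in 𝓝[>] 2,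
      ∑ i, ((s - 2) * FF (R i) (D i) f g s - 2) ^ 2 ≤
        ((8 * f.natDegree + 12) * (8 * g.natDegree + 12) : ℝ) ^ 2 + ε

/-- **A10** (meromorphic continuation makes the residue an integer).
PROOF.  `H(s) = ∑ b_v q_v^(-s)` converges absolutely for `s > 2` (`log q_v ≥ log 2`) and `H' = -F`,
`F(s) = ∑ b_v log q_v q_v^(-s)` (termwise differentiation, `hasDerivAt_tsum` on a half line `(s₀, ∞)`, `s₀ > 2`, bound
`|b_v| log q_v q_v^(-s₀)`).  `G` is not identically zero near `2` (`exp ≠ 0`), so `G(z) = (z-2)^n h(z)` near `2`, `z ≠ 2`, with `h`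
analytic at `2`, `h(2) ≠ 0` (`MeromorphicAt`, `meromorphicOrderAt_eq_int_iff`).  For real `s > 2` near `2` the derivative of
`t ↦ G(t)` along the reals is `-F(s) G(s)` and also `(n/(s-2) + h'(s)/h(s)) G(s)`; `G(s) ≠ 0`.  So
`(s-2) F(s) = -n - (s-2) h'(s)/h(s) → -n`. -/
def StA10 : Prop := ∀ (V : Type) (b q : V → ℝ), (∀ v, 2 ≤ q v) →
  (∀ s : ℝ, 2 < s → Summable (fun v => b v * Real.log (q v) * q v ^ (-s))) →
  ∀ G : ℂ → ℂ, MeromorphicAt G 2 →
  (∀ᶠ s : ℝ in 𝓝[>] 2, G s = ((Real.exp (∑' v, b v * q v ^ (-s)) : ℝ) : ℂ)) →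
  ∃ n : ℤ, Tendsto (fun s : ℝ => (s - 2) * ∑' v, b v * Real.log (q v) * q v ^ (-s)) (𝓝[>] 2) (𝓝 n)

end

end Pool.Agent.Helper95.TT
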